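import Pool.Agent.K1H71.AS.Mem

/-!
# Antistrong plus strong arc-disjoint spanning subdigraphs: NP-completeness

A digraph is given by its adjacency matrix `M` (a list of lists of booleans), its vertices are the
numbers below `M.length` and there is an arc from `i` to `j` iff `i ≠ j` and the entry `M[i][j]` is
`true`. `AntistrongStrong M` says that this digraph has two arc-disjoint spanning subdigraphs, the
first one antistrong, the second one strongly connected.

The problem is in `NP` and it is `NP`-hard. The digraphs of the reduction (from 3-SAT with clauses
of a special form) have `3 N - 1` arcs, where `N` is the number of vertices, so that the antistrong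
subdigraph must have `2 N - 1` arcs and the strong one must be a Hamiltonian cycle.
-/

namespace Pool.Agent.Results.MP_c99d13_lc.NPComplete

open Pool.Agent.NPC Pool.Agent.K1H71.AS

/-- It is `NP`-complete to decide whether a digraph has two arc-disjoint spanning subdigraphs, one
antistrong and one strong. In particular, if it can be decided in polynomial time then every
language in `NP` is in `P`. -/
theorem result : InNPP AntistrongStrong ∧ NPHardP AntistrongStrong ∧
    (InPP AntistrongStrong → ∀ L, InNP L → InP L) :=
  ⟨inNP_main, npHard_main, fun h => NPHard.collapse npHard_main h⟩

end Pool.Agent.Results.MP_c99d13_lc.NPComplete
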